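import Pool.Agent.Helper78.EV.LemmaC
import Pool.Agent.Helper43.EV.Iface

/-!
# Determinant bounds from Lemma C
-/

set_option autoImplicit false

namespace Pool.Agent.Helper78.EV

open Matrix Pool.Agent.Helper99.ZB

theorem prod_bounds {f : ℂ → ℂ} {lo hi : ℝ} (hlo : 0 ≤ lo) (s : Multiset ℂ)
    (h : ∀ a ∈ s, lo ≤ ‖f a‖ ∧ ‖f a‖ ≤ hi) :
    lo ^ Multiset.card s ≤ ‖(s.map f).prod‖ ∧ ‖(s.map f).prod‖ ≤ hi ^ Multiset.card s := by
  induction s using Multiset.induction_on with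
  | empty => simp
  | cons a s ih =>
    obtain ⟨h1, h2⟩ := ih fun b hb => h b (Multiset.mem_cons_of_mem hb)
    obtain ⟨h3, h4⟩ := h a (Multiset.mem_cons_self a s)
    rw [Multiset.map_cons, Multiset.prod_cons, norm_mul, Multiset.card_cons, pow_succ', pow_succ']
    exact ⟨mul_le_mul h3 h1 (pow_nonneg hlo _) (norm_nonneg _),
      mul_le_mul h4 h2 (norm_nonneg _) ((norm_nonneg _).trans h4)⟩

theorem det_bounds {n : ℕ} (A : Matrix (Fin n) (Fin n) ℂ) (h : (Fin n → ℂ) → ℝ)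
    (hsm : ∀ (b : ℂ) (v : Fin n → ℂ), h (b • v) = ‖b‖ ^ 2 * h v) (hpos : ∀ v, v ≠ 0 → 0 < h v)
    {e : ℝ} (he : 0 ≤ e) (hcon : ∀ v, h (A *ᵥ v) ≤ (1 - e) * h v) :
    (e / 2) ^ n ≤ ‖det (1 - A)‖ ∧ ‖det (1 - A)‖ ≤ 2 ^ n := by
  have hroot : ∀ a ∈ A.charpoly.roots, e / 2 ≤ ‖(1 : ℂ) - a‖ ∧ ‖(1 : ℂ) - a‖ ≤ 2 := by
    intro a ha
    have h0 : A.charpoly.eval a = 0 := Polynomial.isRoot_of_mem_roots ha
    rw [eval_charpoly] at h0
    obtain ⟨v, hv, hv2⟩ := exists_mulVec_eq_zero_iff.2 h0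
    have hA : A *ᵥ v = a • v := by
      rw [sub_mulVec, sub_eq_zero] at hv2
      rw [← hv2]
      ext i
      simp [Matrix.scalar_apply, mulVec_diagonal]
    have h1 := hcon v
    rw [hA, hsm] at h1
    have h2 : ‖a‖ ^ 2 ≤ 1 - e := le_of_mul_le_mul_right h1 (hpos v hv)
    have h3 := norm_nonneg a
    have h4 := sq_nonneg ‖a‖
    have h5 : ‖a‖ ≤ 1 - e / 2 := by
      apply le_of_sq_le_sq _ (by linarith)
      nlinarith
    constructor
    · have := norm_sub_norm_le (1 : ℂ) a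
      rw [norm_one] at this
      linarith
    · have := norm_sub_le (1 : ℂ) a
      rw [norm_one] at this
      linarith
  have hsplit : A.charpoly.Splits := IsAlgClosed.splits _
  have hcard : Multiset.card A.charpoly.roots = n := by
    rw [← hsplit.natDegree_eq_card_roots, charpoly_natDegree_eq_dim, Fintype.card_fin]
  have hdet : det (1 - A) = (A.charpoly.roots.map ((1 : ℂ) - ·)).prod := by
    rw [← hsplit.eval_eq_prod_roots_of_monic (charpoly_monic A) 1, eval_charpoly, map_one]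
  rw [hdet]
  have := prod_bounds (f := fun a => (1 : ℂ) - a) (by positivity : 0 ≤ e / 2) _ hroot
  rwa [hcard] at this

theorem hh_smul {n : ℕ} (c : ℝ) (b : ℂ) (v : Fin n → ℂ) : hh c (b • v) = ‖b‖ ^ 2 * hh c v := by
  unfold hh ip
  have e : ∑ i, (starRingEnd ℂ) ((b • v) i) * T c (b • v) i =
      ((‖b‖ ^ 2 : ℝ) : ℂ) * ∑ i, (starRingEnd ℂ) (v i) * T c v i := by
    rw [Finset.mul_sum]
    refine Finset.sum_congr rfl fun i _ => ?_
    rw [T_smul, Pi.smul_apply, smul_eq_mul, map_mul]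
    push_cast
    rw [← Complex.conj_mul']
    ring
  rw [e, Complex.re_ofReal_mul]

/-- **[C]** the determinant bounds -/
theorem db : Pool.Agent.Helper43.EV.DB := by
  intro n Phi hPhi
  obtain ⟨th, hth, de, hde, H⟩ := lemmaC n hPhi.le
  refine ⟨de / 2, by positivity, th, hth, ?_⟩
  intro x y hx hxP hy w hw hfull
  obtain ⟨hpos, hcon⟩ := H x y hx hxP hy
  have h := det_bounds (W (ss x y) n w) (hh (Real.cosh x * Real.cos y)) (hh_smul _) hpos
    (by positivity : 0 ≤ de * x) (hcon w hw hfull)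
  have e : de / 2 * x = de * x / 2 := by ring
  rw [e]
  exact h

end Pool.Agent.Helper78.EV
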