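import Pool.Agent.Helper99.ZB.Contr

/-!
# The energy form of the Burau matrices at a complex parameter

`T c v i = c v_i - (v_{i-1} + v_{i+1}) / 2`, `ip c w v = Σ conj w_i (T c v)_i`,
`hh c v = Re ip c v v`. The letter `a` maps `v` to `v - (ell a v) e_a` and
`ell a v = 2 s ((T c v)_a + i d v_a)` where `cosh φ = c + i d`, `s = exp (-φ)`.
-/

set_option autoImplicit false

namespace Pool.Agent.Helper78.EV

open Matrix Pool.Agent.Helper99.ZB

variable {n : ℕ}

/-- adjacency coefficient of the path -/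
def adj (i j : Fin n) : ℝ := if (j : ℕ) + 1 = i ∨ (i : ℕ) + 1 = j then 1 else 0

theorem adj_symm (i j : Fin n) : adj i j = adj j i := by
  unfold adj
  congr 1
  rw [eq_iff_iff]
  constructor <;> (rintro (h | h) <;> simp [h])

theorem adj_nonneg (i j : Fin n) : 0 ≤ adj i j := by
  unfold adj
  split_ifs <;> norm_num

theorem adj_le_one (i j : Fin n) : adj i j ≤ 1 := by
  unfold adj
  split_ifs <;> norm_num

/-- the tridiagonal operator -/
noncomputable def T (c : ℝ) (v : Fin n → ℂ) (i : Fin n) : ℂ :=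
  (c : ℂ) * v i - (1 / 2) * ∑ j, (adj i j : ℂ) * v j

theorem T_add (c : ℝ) (v w : Fin n → ℂ) (i : Fin n) : T c (v + w) i = T c v i + T c w i := by
  unfold T
  simp only [Pi.add_apply, mul_add, Finset.sum_add_distrib]
  ring

theorem T_sub (c : ℝ) (v w : Fin n → ℂ) (i : Fin n) : T c (v - w) i = T c v i - T c w i := by
  unfold T
  simp only [Pi.sub_apply, mul_sub, Finset.sum_sub_distrib]
  ring

theorem T_smul (c : ℝ) (b : ℂ) (v : Fin n → ℂ) (i : Fin n) : T c (b • v) i = b * T c v i := by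
  unfold T
  simp only [Pi.smul_apply, smul_eq_mul, mul_sub, Finset.mul_sum]
  congr 1
  · ring
  · exact Finset.sum_congr rfl fun j _ => by ring

/-- the Hermitian form -/
noncomputable def ip (c : ℝ) (w v : Fin n → ℂ) : ℂ := ∑ i, (starRingEnd ℂ) (w i) * T c v i

/-- the energy -/
noncomputable def hh (c : ℝ) (v : Fin n → ℂ) : ℝ := (ip c v v).re

theorem ip_add_right (c : ℝ) (w v v' : Fin n → ℂ) : ip c w (v + v') = ip c w v + ip c w v' := by
  unfold ip
  rw [← Finset.sum_add_distrib]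
  exact Finset.sum_congr rfl fun i _ => by rw [T_add, mul_add]

theorem ip_add_left (c : ℝ) (w w' v : Fin n → ℂ) : ip c (w + w') v = ip c w v + ip c w' v := by
  unfold ip
  rw [← Finset.sum_add_distrib]
  exact Finset.sum_congr rfl fun i _ => by rw [Pi.add_apply, map_add, add_mul]

theorem ip_symm (c : ℝ) (w v : Fin n → ℂ) : ip c w v = (starRingEnd ℂ) (ip c v w) := by
  unfold ip T
  rw [map_sum]
  simp only [map_mul, map_sub, map_sum, Complex.conj_conj, Complex.conj_ofReal, map_div₀, map_one,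
    map_ofNat, mul_sub, Finset.sum_sub_distrib]
  congr 1
  · exact Finset.sum_congr rfl fun i _ => by ring
  · simp only [Finset.mul_sum]
    rw [Finset.sum_comm]
    refine Finset.sum_congr rfl fun i _ => Finset.sum_congr rfl fun j _ => ?_
    rw [adj_symm]
    ring

theorem hh_add (c : ℝ) (v w : Fin n → ℂ) :
    hh c (v + w) = hh c v + 2 * (ip c w v).re + hh c w := by
  unfold hh
  rw [ip_add_left, ip_add_right, ip_add_right]
  have : (ip c v w).re = (ip c w v).re := by
    rw [ip_symm, Complex.conj_re]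
  simp only [Complex.add_re]
  rw [this]
  ring

theorem norm_T_le (c : ℝ) (hc : 0 ≤ c) (v : Fin n → ℂ) (i : Fin n) :
    ‖T c v i‖ ≤ (c + n) * ‖v‖ := by
  unfold T
  have h1 : ‖(c : ℂ) * v i‖ ≤ c * ‖v‖ := by
    rw [norm_mul, Complex.norm_real, Real.norm_of_nonneg hc]
    exact mul_le_mul_of_nonneg_left (norm_le_pi_norm v i) hc
  have h2 : ‖∑ j, (adj i j : ℂ) * v j‖ ≤ n * ‖v‖ := by
    refine (norm_sum_le _ _).trans ?_
    have : ∀ j ∈ (Finset.univ : Finset (Fin n)), ‖(adj i j : ℂ) * v j‖ ≤ ‖v‖ := by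
      intro j _
      rw [norm_mul, Complex.norm_real, Real.norm_of_nonneg (adj_nonneg i j)]
      calc adj i j * ‖v j‖ ≤ 1 * ‖v‖ :=
            mul_le_mul (adj_le_one i j) (norm_le_pi_norm v j) (norm_nonneg _) zero_le_one
        _ = ‖v‖ := one_mul _
    refine (Finset.sum_le_card_nsmul _ _ _ this).trans ?_
    simp
  have h3 : ‖(1 / 2 : ℂ) * ∑ j, (adj i j : ℂ) * v j‖ ≤ n * ‖v‖ := by
    rw [norm_mul]
    have : ‖(1 / 2 : ℂ)‖ = 1 / 2 := by norm_num
    rw [this]
    have := norm_nonneg (∑ j, (adj i j : ℂ) * v j)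
    linarith
  refine (norm_sub_le _ _).trans ?_
  rw [add_mul]
  linarith

/-- sums over coordinates, crude bound -/
theorem norm_sum_conj_le (v w : Fin n → ℂ) {A B : ℝ}
    (hv : ∀ i, ‖v i‖ ≤ A) (hw : ∀ i, ‖w i‖ ≤ B) :
    ‖∑ i, (starRingEnd ℂ) (v i) * w i‖ ≤ n * (A * B) := by
  refine (norm_sum_le _ _).trans ?_
  have : ∀ i ∈ (Finset.univ : Finset (Fin n)), ‖(starRingEnd ℂ) (v i) * w i‖ ≤ A * B := by
    intro i _
    rw [norm_mul, RCLike.norm_conj]
    exact mul_le_mul (hv i) (hw i) (norm_nonneg _) ((norm_nonneg _).trans (hv i))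
  refine (Finset.sum_le_card_nsmul _ _ _ this).trans ?_
  simp

theorem hh_le (c : ℝ) (hc : 0 ≤ c) (v : Fin n → ℂ) : hh c v ≤ n * (c + n) * ‖v‖ ^ 2 := by
  unfold hh ip
  refine (Complex.re_le_norm _).trans ?_
  refine (norm_sum_conj_le v (T c v) (norm_le_pi_norm v)
    (norm_T_le c hc v)).trans ?_
  apply le_of_eq
  ring

/-- the weighted Cauchy inequality -/
theorem hh_ge {κ : ℝ} {ω : ℕ → ℝ} (hω : Wt n κ ω) (c : ℝ) (v : Fin n → ℂ) :
    (c - κ) * ∑ i, ‖v i‖ ^ 2 ≤ hh c v := by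
  -- the double sum
  have key : ∑ i, ∑ j, adj i j * (‖v i‖ * ‖v j‖) ≤ 2 * κ * ∑ i, ‖v i‖ ^ 2 := by
    have h1 : ∀ i j : Fin n, adj i j * (‖v i‖ * ‖v j‖) ≤
        (1 / 2) * (adj i j * (‖v i‖ ^ 2 * (ω (j + 1) / ω (i + 1)))) +
        (1 / 2) * (adj i j * (‖v j‖ ^ 2 * (ω (i + 1) / ω (j + 1)))) := by
      intro i j
      have hi := hω.pos i i.2
      have hj := hω.pos j j.2
      have h2 : ‖v i‖ * ‖v j‖ ≤ (1 / 2) * (‖v i‖ ^ 2 * (ω (j + 1) / ω (i + 1))) +
          (1 / 2) * (‖v j‖ ^ 2 * (ω (i + 1) / ω (j + 1))) := by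
        have e : (1 / 2) * (‖v i‖ ^ 2 * (ω (j + 1) / ω (i + 1))) +
          (1 / 2) * (‖v j‖ ^ 2 * (ω (i + 1) / ω (j + 1))) - ‖v i‖ * ‖v j‖ =
          (‖v i‖ * ω (j + 1) - ‖v j‖ * ω (i + 1)) ^ 2 / (2 * ω (i + 1) * ω (j + 1)) := by
          field_simp
          ring
        have : 0 ≤ (‖v i‖ * ω (j + 1) - ‖v j‖ * ω (i + 1)) ^ 2 / (2 * ω (i + 1) * ω (j + 1)) := by
          positivity
        linarith
      have := mul_le_mul_of_nonneg_left h2 (adj_nonneg i j)
      linarith
    have h3 : ∑ i, ∑ j, adj i j * (‖v i‖ * ‖v j‖) ≤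
        ∑ i, ∑ j, adj i j * (‖v i‖ ^ 2 * (ω (j + 1) / ω (i + 1))) := by
      have h4 : ∑ i, ∑ j, adj i j * (‖v j‖ ^ 2 * (ω (i + 1) / ω (j + 1))) =
          ∑ i, ∑ j, adj i j * (‖v i‖ ^ 2 * (ω (j + 1) / ω (i + 1))) := by
        rw [Finset.sum_comm]
        refine Finset.sum_congr rfl fun i _ => Finset.sum_congr rfl fun j _ => ?_
        rw [adj_symm]
      calc ∑ i, ∑ j, adj i j * (‖v i‖ * ‖v j‖) ≤
          ∑ i, ∑ j, ((1 / 2) * (adj i j * (‖v i‖ ^ 2 * (ω (j + 1) / ω (i + 1)))) +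
            (1 / 2) * (adj i j * (‖v j‖ ^ 2 * (ω (i + 1) / ω (j + 1))))) :=
            Finset.sum_le_sum fun i _ => Finset.sum_le_sum fun j _ => h1 i j
        _ = _ := by
            simp only [Finset.sum_add_distrib, ← Finset.mul_sum]
            rw [h4]
            ring
    have h5 : ∀ i : Fin n, ∑ j, adj i j * ω (j + 1) ≤ 2 * κ * ω (i + 1) := by
      intro i
      rw [← hω.step i i.2]
      have a1 : ∀ j : Fin n, adj i j * ω (j + 1) ≤
          (if (j : ℕ) + 1 = i then ω i else 0) + (if (i : ℕ) + 1 = j then ω (i + 2) else 0) := by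
        intro j
        unfold adj
        by_cases h : (j : ℕ) + 1 = i
        · have h' : ¬ ((i : ℕ) + 1 = j) := by omega
          rw [if_pos (Or.inl h), if_pos h, if_neg h', h]
          simp
        · by_cases h' : (i : ℕ) + 1 = j
          · rw [if_pos (Or.inr h'), if_neg h, if_pos h', ← h']
            simp
          · rw [if_neg (by tauto), if_neg h, if_neg h']
            simp
      refine (Finset.sum_le_sum fun j _ => a1 j).trans ?_
      rw [Finset.sum_add_distrib]
      have b1 : ∑ j : Fin n, (if (j : ℕ) + 1 = i then ω i else 0) ≤ ω i := by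
        by_cases hi : (i : ℕ) = 0
        · rw [Finset.sum_eq_zero]
          · exact hω.nn _ (by omega)
          · intro j _
            rw [if_neg (by omega)]
        · rw [Finset.sum_eq_single (⟨(i : ℕ) - 1, by omega⟩ : Fin n)]
          · rw [if_pos (by simp; omega)]
          · intro j _ hj
            rw [if_neg]
            intro h
            apply hj
            ext
            simp
            omega
          · intro h
            exact absurd (Finset.mem_univ _) h
      have b2 : ∑ j : Fin n, (if (i : ℕ) + 1 = j then ω (i + 2) else 0) ≤ ω (i + 2) := by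
        by_cases hi : (i : ℕ) + 1 < n
        · rw [Finset.sum_eq_single (⟨(i : ℕ) + 1, hi⟩ : Fin n)]
          · rw [if_pos (by simp)]
          · intro j _ hj
            rw [if_neg]
            intro h
            apply hj
            ext
            simp
            omega
          · intro h
            exact absurd (Finset.mem_univ _) h
        · rw [Finset.sum_eq_zero]
          · exact hω.nn _ (by omega)
          · intro j _
            rw [if_neg (by omega)]
      linarith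
    refine h3.trans ?_
    rw [Finset.mul_sum]
    refine Finset.sum_le_sum fun i _ => ?_
    have hi := hω.pos i i.2
    have e : ∑ j, adj i j * (‖v i‖ ^ 2 * (ω (j + 1) / ω (i + 1))) =
        (‖v i‖ ^ 2 / ω (i + 1)) * ∑ j, adj i j * ω (j + 1) := by
      rw [Finset.mul_sum]
      exact Finset.sum_congr rfl fun j _ => by ring
    rw [e]
    calc ‖v i‖ ^ 2 / ω (i + 1) * ∑ j, adj i j * ω (j + 1) ≤
        ‖v i‖ ^ 2 / ω (i + 1) * (2 * κ * ω (i + 1)) :=
          mul_le_mul_of_nonneg_left (h5 i) (by positivity)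
      _ = 2 * κ * ‖v i‖ ^ 2 := by field_simp
  have e : hh c v = c * ∑ i, ‖v i‖ ^ 2 -
      (1 / 2) * ∑ i, ∑ j, adj i j * ((starRingEnd ℂ) (v i) * v j).re := by
    unfold hh ip T
    rw [Complex.re_sum, Finset.mul_sum, Finset.mul_sum, ← Finset.sum_sub_distrib]
    refine Finset.sum_congr rfl fun i _ => ?_
    have e1 : (starRingEnd ℂ) (v i) * ((c : ℂ) * v i - 1 / 2 * ∑ j, (adj i j : ℂ) * v j) =
        ((c * ‖v i‖ ^ 2 : ℝ) : ℂ) - ((1 / 2 : ℝ) : ℂ) *
          ∑ j, ((adj i j : ℝ) : ℂ) * ((starRingEnd ℂ) (v i) * v j) := by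
      rw [mul_sub]
      congr 1
      · push_cast
        rw [← Complex.conj_mul']
        ring
      · push_cast
        rw [Finset.mul_sum, Finset.mul_sum, Finset.mul_sum]
        exact Finset.sum_congr rfl fun j _ => by ring
    rw [e1, Complex.sub_re, Complex.ofReal_re, Complex.re_ofReal_mul, Complex.re_sum]
    congr 2
    exact Finset.sum_congr rfl fun j _ => by rw [Complex.re_ofReal_mul]
  have h6 : ∑ i, ∑ j, adj i j * ((starRingEnd ℂ) (v i) * v j).re ≤
      ∑ i, ∑ j, adj i j * (‖v i‖ * ‖v j‖) := by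
    refine Finset.sum_le_sum fun i _ => Finset.sum_le_sum fun j _ => ?_
    refine mul_le_mul_of_nonneg_left ?_ (adj_nonneg i j)
    refine (Complex.re_le_norm _).trans ?_
    rw [norm_mul, RCLike.norm_conj]
  rw [e, sub_mul]
  linarith

theorem sq_norm_le_sum (v : Fin n → ℂ) : ‖v‖ ^ 2 ≤ ∑ i, ‖v i‖ ^ 2 := by
  have h0 : 0 ≤ ∑ i, ‖v i‖ ^ 2 := Finset.sum_nonneg fun i _ => sq_nonneg _
  have h1 : ‖v‖ ≤ Real.sqrt (∑ i, ‖v i‖ ^ 2) := by
    rw [pi_norm_le_iff_of_nonneg (Real.sqrt_nonneg _)]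
    intro i
    apply Real.le_sqrt_of_sq_le
    exact Finset.single_le_sum (f := fun i => ‖v i‖ ^ 2) (fun j _ => sq_nonneg _)
      (Finset.mem_univ i)
  calc ‖v‖ ^ 2 ≤ Real.sqrt (∑ i, ‖v i‖ ^ 2) ^ 2 := pow_le_pow_left₀ (norm_nonneg _) h1 2
    _ = _ := Real.sq_sqrt h0

/-- `cos (π / (n + 1)) < 1` -/
theorem kap_lt (n : ℕ) : Real.cos (Real.pi / (n + 1)) < 1 := by
  have hn : (0 : ℝ) < (n : ℝ) + 1 := by positivity
  have h1 : 0 < Real.pi / (n + 1) := div_pos Real.pi_pos hn
  have h2 : Real.pi / (n + 1) ≤ Real.pi := by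
    rw [div_le_iff₀ hn]
    have : (0 : ℝ) ≤ n := Nat.cast_nonneg n
    nlinarith [Real.pi_pos]
  have h3 := Real.cos_lt_cos_of_nonneg_of_le_pi (le_refl (0 : ℝ)) h2 h1
  rwa [Real.cos_zero] at h3

theorem hh_ge' {c lam : ℝ} (hlam : lam + Real.cos (Real.pi / (n + 1)) ≤ c) (h0 : 0 ≤ lam)
    (v : Fin n → ℂ) : lam * ‖v‖ ^ 2 ≤ hh c v := by
  have h1 := hh_ge (wt_sin n) c v
  have h2 := sq_norm_le_sum v
  have h3 : 0 ≤ ∑ i, ‖v i‖ ^ 2 := Finset.sum_nonneg fun i _ => sq_nonneg _
  nlinarith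

/-- vectors supported in `I` -/
def Sup (I : Finset (Fin n)) (v : Fin n → ℂ) : Prop := ∀ i, i ∉ I → v i = 0

/-- the linear form of a letter in terms of `T` -/
theorem ell_eq {s : ℂ} {c d : ℝ} (hs : 1 + s ^ 2 = 2 * s * (c + d * Complex.I))
    (a : Fin n) (v : Fin n → ℂ) :
    ell s n a ⬝ᵥ v = 2 * s * (T c v a + d * Complex.I * v a) := by
  unfold dotProduct ell T
  have e : ∀ j : Fin n, (if (j : ℕ) = a then 1 + s ^ 2
      else if (j : ℕ) + 1 = a ∨ (a : ℕ) + 1 = j then -s else 0) * v j =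
      (if j = a then (1 + s ^ 2) * v j else 0) - s * ((adj a j : ℂ) * v j) := by
    intro j
    unfold adj
    by_cases h : j = a
    · subst h
      simp
    · have h' : ¬ ((j : ℕ) = a) := fun h' => h (Fin.ext h')
      rw [if_neg h', if_neg h]
      by_cases h2 : (j : ℕ) + 1 = a ∨ (a : ℕ) + 1 = j
      · rw [if_pos h2, if_pos h2]
        push_cast
        ring
      · rw [if_neg h2, if_neg h2]
        simp
  rw [Finset.sum_congr rfl fun j _ => e j, Finset.sum_sub_distrib, Finset.sum_ite_eq' , ← Finset.mul_sum]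
  simp only [Finset.mem_univ, if_true]
  rw [hs]
  ring

theorem T_single (c : ℝ) (b : ℂ) (a : Fin n) (w : Fin n → ℂ) :
    ip c (Pi.single a b) w = (starRingEnd ℂ) b * T c w a := by
  unfold ip
  rw [Finset.sum_eq_single a]
  · rw [Pi.single_eq_same]
  · intro i _ hi
    rw [Pi.single_eq_of_ne hi, map_zero, zero_mul]
  · intro h
    exact absurd (Finset.mem_univ _) h

theorem hh_single (c : ℝ) (b : ℂ) (a : Fin n) : hh c (Pi.single a b) = c * ‖b‖ ^ 2 := by
  unfold hh
  rw [T_single]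
  have e : T c (Pi.single a b) a = c * b := by
    unfold T
    rw [Pi.single_eq_same, Finset.sum_eq_single a]
    · have : adj a a = 0 := by
        unfold adj
        rw [if_neg (by omega)]
      rw [this]
      simp
    · intro j _ hj
      rw [Pi.single_eq_of_ne hj, mul_zero]
    · intro h
      exact absurd (Finset.mem_univ _) h
  rw [e]
  have : (starRingEnd ℂ) b * (c * b) = ((c * ‖b‖ ^ 2 : ℝ) : ℂ) := by
    push_cast
    rw [← Complex.conj_mul']
    ring
  rw [this, Complex.ofReal_re]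

/-- changing one coordinate -/
theorem hh_update (c : ℝ) (v : Fin n → ℂ) (a : Fin n) (b : ℂ) :
    hh c (v - Pi.single a b) = hh c v - 2 * ((starRingEnd ℂ) b * T c v a).re + c * ‖b‖ ^ 2 := by
  have e : v - Pi.single a b = v + Pi.single a (-b) := by
    rw [Pi.single_neg, sub_eq_add_neg]
  rw [e, hh_add, T_single, hh_single, norm_neg, map_neg, neg_mul, Complex.neg_re]
  ring

end Pool.Agent.Helper78.EV
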