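import Pool.Agent.Helper78.EV.Form

/-!
# The induction on the support
-/

set_option autoImplicit false

namespace Pool.Agent.Helper78.EV

open Matrix Pool.Agent.Helper99.ZB

variable {n : ℕ}

/-- the action of a word in the letters `Fin n` -/
noncomputable def act (s : ℂ) (w : List (Fin n)) (v : Fin n → ℂ) : Fin n → ℂ :=
  W s n (w.map Fin.val) *ᵥ v

@[simp] theorem act_nil (s : ℂ) (v : Fin n → ℂ) : act s [] v = v := by
  unfold act
  simp

theorem act_cons (s : ℂ) (a : Fin n) (w : List (Fin n)) (v : Fin n → ℂ) :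
    act s (a :: w) v = act s w v - Pi.single a (ell s n a ⬝ᵥ act s w v) := by
  unfold act
  rw [List.map_cons, W_cons, ← mulVec_mulVec]
  ext i
  rw [Bm_mulVec_apply, Pi.sub_apply]
  by_cases h : i = a
  · subst h
    simp
  · have h' : ¬ ((i : ℕ) = a) := fun h' => h (Fin.ext h')
    rw [if_neg h', Pi.single_eq_of_ne h]

theorem act_append (s : ℂ) (u w : List (Fin n)) (v : Fin n → ℂ) :
    act s (u ++ w) v = act s u (act s w v) := by
  unfold act
  rw [List.map_append, W_append, ← mulVec_mulVec]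

theorem act_add (s : ℂ) (w : List (Fin n)) (v v' : Fin n → ℂ) :
    act s w (v + v') = act s w v + act s w v' := by
  unfold act
  rw [mulVec_add]

/-- vectors killed by all letters in the word are fixed -/
theorem act_fix {s : ℂ} {w : List (Fin n)} {v : Fin n → ℂ} (h : ∀ a ∈ w, ell s n a ⬝ᵥ v = 0) :
    act s w v = v := by
  induction w with
  | nil => simp
  | cons a w ih =>
    rw [act_cons, ih fun b hb => h b (List.mem_cons_of_mem _ hb), h a (by simp)]
    simp

/-- the support is preserved -/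
theorem act_sup {s : ℂ} {I : Finset (Fin n)} {w : List (Fin n)} (hw : ∀ a ∈ w, a ∈ I)
    {v : Fin n → ℂ} (hv : Sup I v) : Sup I (act s w v) := by
  induction w with
  | nil => simpa using hv
  | cons a w ih =>
    intro i hi
    rw [act_cons, Pi.sub_apply, ih (fun b hb => hw b (List.mem_cons_of_mem _ hb)) i hi]
    have : i ≠ a := by
      rintro rfl
      exact hi (hw i (by simp))
    rw [Pi.single_eq_of_ne this, sub_zero]

/-- the data of one parameter value -/
structure Reg (n : ℕ) (Lam lam c1 K D : ℝ) (x y : ℝ) (s : ℂ) (c d : ℝ) : Prop where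
  hx : 0 < x
  hs : 1 + s ^ 2 = 2 * s * (c + d * Complex.I)
  s0 : s ≠ 0
  c0 : 0 ≤ c
  hT : c + n ≤ Lam
  hH : n * (c + n) ≤ Lam
  hlam : lam + Real.cos (Real.pi / (n + 1)) ≤ c
  hd : |d| ≤ D * x * |y|
  hd' : |d| ≤ D
  letter : ∀ (v : Fin n → ℂ) (a : Fin n), hh c (v - Pi.single a (ell s n a ⬝ᵥ v)) ≤
    hh c v - c1 * x * ‖T c v a‖ ^ 2 + K * x * y ^ 2 * ‖v‖ ^ 2

theorem re_zero (d : ℝ) (b : ℂ) : ((starRingEnd ℂ) b * (d * Complex.I * b)).re = 0 := by
  have : (starRingEnd ℂ) b * (d * Complex.I * b) = ((d * ‖b‖ ^ 2 : ℝ) : ℂ) * Complex.I := by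
    push_cast
    rw [← Complex.conj_mul']
    ring
  rw [this, Complex.mul_I_re, Complex.ofReal_im, neg_zero]

/-- the energy through the complex operator -/
theorem hh_eq {c d : ℝ} {z g : Fin n → ℂ}
    (h : ∀ i, z i ≠ 0 → T c z i + d * Complex.I * z i = g i) :
    hh c z = (∑ i, (starRingEnd ℂ) (z i) * g i).re := by
  unfold hh ip
  rw [Complex.re_sum, Complex.re_sum]
  refine Finset.sum_congr rfl fun i _ => ?_
  by_cases hz : z i = 0
  · rw [hz]
    simp
  · rw [← h i hz, mul_add, Complex.add_re, re_zero, add_zero]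

section

variable {Lam lam c1 K D x y c d : ℝ} {s : ℂ}

theorem Reg.ell_form (R : Reg n Lam lam c1 K D x y s c d) (a : Fin n) (v : Fin n → ℂ) :
    ell s n a ⬝ᵥ v = 2 * s * (T c v a + d * Complex.I * v a) :=
  ell_eq R.hs a v

theorem Reg.ell_zero (R : Reg n Lam lam c1 K D x y s c d) {a : Fin n} {v : Fin n → ℂ}
    (h : ell s n a ⬝ᵥ v = 0) : T c v a + d * Complex.I * v a = 0 := by
  rw [R.ell_form] at h
  have : (2 * s : ℂ) ≠ 0 := mul_ne_zero two_ne_zero R.s0
  exact (mul_eq_zero.1 h).resolve_left this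

theorem Reg.ge (R : Reg n Lam lam c1 K D x y s c d) (hl : 0 < lam) (v : Fin n → ℂ) :
    lam * ‖v‖ ^ 2 ≤ hh c v := hh_ge' R.hlam hl.le v

theorem Reg.nonneg (R : Reg n Lam lam c1 K D x y s c d) (hl : 0 < lam) (v : Fin n → ℂ) :
    0 ≤ hh c v := le_trans (by positivity) (R.ge hl v)

theorem Reg.le (R : Reg n Lam lam c1 K D x y s c d) (v : Fin n → ℂ) :
    hh c v ≤ Lam * ‖v‖ ^ 2 :=
  (hh_le c R.c0 v).trans (mul_le_mul_of_nonneg_right R.hH (sq_nonneg _))

theorem Reg.T_le (R : Reg n Lam lam c1 K D x y s c d) (v : Fin n → ℂ) (i : Fin n) :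
    ‖T c v i‖ ≤ Lam * ‖v‖ :=
  (norm_T_le c R.c0 v i).trans (mul_le_mul_of_nonneg_right R.hT (norm_nonneg _))

theorem norm_dI (d : ℝ) (b : ℂ) : ‖(d : ℂ) * Complex.I * b‖ = |d| * ‖b‖ := by
  rw [norm_mul, norm_mul, Complex.norm_I, Complex.norm_real, Real.norm_eq_abs, mul_one]

/-- the harmonic decomposition -/
theorem Reg.harm (R : Reg n Lam lam c1 K D x y s c d) (hl : 0 < lam) (hL : 0 ≤ Lam)
    (hD : 0 ≤ D) (I : Finset (Fin n)) (v : Fin n → ℂ) :
    ∃ z, Sup I z ∧ (∀ a ∈ I, ell s n a ⬝ᵥ (v - z) = 0) ∧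
      ‖z‖ ≤ n * (Lam + D) / lam * ‖v‖ := by
  classical
  obtain ⟨L, hLdef⟩ : ∃ L : (Fin n → ℂ) →ₗ[ℂ] (Fin n → ℂ), ∀ z i, L z i =
      if i ∈ I then ell s n i ⬝ᵥ z else z i := by
    refine ⟨{ toFun := fun z i => if i ∈ I then ell s n i ⬝ᵥ z else z i
              map_add' := ?_
              map_smul' := ?_ }, fun z i => rfl⟩
    · intro z z'
      ext i
      by_cases h : i ∈ I <;> simp [h, dotProduct_add]
    · intro b z
      ext i
      by_cases h : i ∈ I <;> simp [h, dotProduct_smul]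
  have hinj : Function.Injective L := by
    rw [← LinearMap.ker_eq_bot, LinearMap.ker_eq_bot']
    intro z hz
    have hz1 : ∀ i, L z i = 0 := fun i => by rw [hz]; rfl
    have h1 : hh c z = (∑ i, (starRingEnd ℂ) (z i) * (0 : Fin n → ℂ) i).re := by
      apply hh_eq (d := d)
      intro i hi
      have hiI : i ∈ I := by
        by_contra hcon
        have := hz1 i
        rw [hLdef, if_neg hcon] at this
        exact hi this
      have := hz1 i
      rw [hLdef, if_pos hiI] at this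
      exact R.ell_zero this
    have h2 := R.ge hl z
    rw [h1] at h2
    simp only [Pi.zero_apply, mul_zero, Finset.sum_const_zero, Complex.zero_re] at h2
    have h3 : ‖z‖ ^ 2 ≤ 0 := by
      by_contra hcon
      push Not at hcon
      have := mul_pos hl hcon
      linarith
    have h4 : ‖z‖ = 0 := by
      have := sq_nonneg ‖z‖
      exact pow_eq_zero_iff (two_ne_zero) |>.1 (le_antisymm h3 this)
    exact norm_eq_zero.1 h4
  have hsurj : Function.Surjective L := LinearMap.surjective_of_injective hinj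
  obtain ⟨z, hz⟩ := hsurj fun i => if i ∈ I then ell s n i ⬝ᵥ v else 0
  have hz1 : ∀ i, L z i = if i ∈ I then ell s n i ⬝ᵥ v else 0 :=
    fun i => by rw [hz]
  have hsup : Sup I z := by
    intro i hi
    have := hz1 i
    rwa [hLdef, if_neg hi, if_neg hi] at this
  have hell : ∀ a ∈ I, ell s n a ⬝ᵥ (v - z) = 0 := by
    intro a ha
    have := hz1 a
    rw [hLdef, if_pos ha, if_pos ha] at this
    rw [dotProduct_sub, this, sub_self]
  refine ⟨z, hsup, hell, ?_⟩
  have h1 : hh c z = (∑ i, (starRingEnd ℂ) (z i) * (T c v i + d * Complex.I * v i)).re := by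
    apply hh_eq (d := d)
    intro i hi
    have hiI : i ∈ I := by
      by_contra hcon
      exact hi (hsup i hcon)
    have := R.ell_zero (hell i hiI)
    rw [T_sub, Pi.sub_apply] at this
    linear_combination -this
  have h2 : ‖∑ i, (starRingEnd ℂ) (z i) * (T c v i + d * Complex.I * v i)‖ ≤
      n * (‖z‖ * ((Lam + D) * ‖v‖)) := by
    apply norm_sum_conj_le z (fun i => T c v i + d * Complex.I * v i) (norm_le_pi_norm z)
    intro i
    refine (norm_add_le _ _).trans ?_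
    rw [norm_dI, add_mul]
    have a1 := R.T_le v i
    have a2 : |d| * ‖v i‖ ≤ D * ‖v‖ :=
      mul_le_mul R.hd' (norm_le_pi_norm v i) (norm_nonneg _) hD
    linarith
  have h3 := R.ge hl z
  have h4 := Complex.re_le_norm (∑ i, (starRingEnd ℂ) (z i) * (T c v i + d * Complex.I * v i))
  have h5 : lam * ‖z‖ ^ 2 ≤ n * (‖z‖ * ((Lam + D) * ‖v‖)) := by linarith
  rcases (norm_nonneg z).eq_or_lt with h0 | h0
  · rw [← h0]
    positivity
  · rw [div_mul_eq_mul_div, le_div_iff₀ hl]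
    have : ‖z‖ * (‖z‖ * lam) ≤ ‖z‖ * (n * (Lam + D) * ‖v‖) := by linarith
    exact le_of_mul_le_mul_left this h0

/-- the contraction statement for the letters in `I` -/
def Con (s : ℂ) (c x de : ℝ) (I : Finset (Fin n)) : Prop :=
  ∀ w : List (Fin n), (∀ a, a ∈ w ↔ a ∈ I) → ∀ z, Sup I z → hh c (act s w z) ≤ (1 - de * x) * hh c z

/-- words with a given support acting on arbitrary vectors -/
theorem Reg.part (R : Reg n Lam lam c1 K D x y s c d) (hl : 0 < lam) (hL : 0 ≤ Lam)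
    (hD : 0 ≤ D) {Q C : ℝ} (hQ1 : 1 ≤ Q) (hQ : Lam ≤ lam * Q ^ 2) (hC : n * (Lam + D) / lam ≤ C)
    {de : ℝ} (hde : 0 < de) {I : Finset (Fin n)} (hI : Con s c x de I)
    (v : Fin n → ℂ) :
    ∃ z, Sup I z ∧ (∀ a ∈ I, ell s n a ⬝ᵥ (v - z) = 0) ∧
      ‖z‖ ≤ C * ‖v‖ ∧ ∀ w : List (Fin n), (∀ a, a ∈ w ↔ a ∈ I) →
        act s w v = act s w z + (v - z) ∧ ‖act s w z‖ ≤ Q * ‖z‖ ∧
        hh c (act s w v) ≤ hh c v - de * lam / 2 * x * ‖z‖ ^ 2 +
          (4 * n * Q * D * (1 + C)) ^ 2 / (2 * (de * lam)) * x * y ^ 2 * ‖v‖ ^ 2 := by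
  obtain ⟨z, hsup, hell, hz⟩ := R.harm hl hL hD I v
  have hz' : ‖z‖ ≤ C * ‖v‖ := hz.trans (mul_le_mul_of_nonneg_right hC (norm_nonneg _))
  refine ⟨z, hsup, hell, hz', fun w hw => ?_⟩
  have hfix : act s w (v - z) = v - z := act_fix fun a ha => hell a ((hw a).1 ha)
  have hv : v = z + (v - z) := by abel
  have e1 : act s w v = act s w z + (v - z) := by
    conv_lhs => rw [hv]
    rw [act_add, hfix]
  have hx := R.hx
  have hcon := hI w hw z hsup
  have hnn := R.nonneg hl z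
  have hQz : ‖act s w z‖ ≤ Q * ‖z‖ := by
    have h1 := R.ge hl (act s w z)
    have h2 := R.le z
    have h3 : (1 - de * x) * hh c z ≤ hh c z := by
      have : 0 ≤ de * x * hh c z := by positivity
      linarith
    have h4 : lam * ‖act s w z‖ ^ 2 ≤ lam * (Q * ‖z‖) ^ 2 := by
      have : Lam * ‖z‖ ^ 2 ≤ lam * Q ^ 2 * ‖z‖ ^ 2 :=
        mul_le_mul_of_nonneg_right hQ (sq_nonneg _)
      rw [mul_pow, ← mul_assoc]
      linarith
    have h5 := le_of_mul_le_mul_left h4 hl
    exact le_of_sq_le_sq h5 (by positivity)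
  refine ⟨e1, hQz, ?_⟩
  obtain ⟨r, hr⟩ : ∃ r, r = act s w z - z := ⟨_, rfl⟩
  have hrz : act s w z = r + z := by rw [hr]; abel
  have hr_norm : ‖r‖ ≤ 2 * Q * ‖z‖ := by
    rw [hr]
    refine (norm_sub_le _ _).trans ?_
    have := norm_nonneg z
    nlinarith
  have hr_sup : Sup I r := by
    intro i hi
    rw [hr, Pi.sub_apply, act_sup (fun a ha => (hw a).1 ha) hsup i hi, hsup i hi, sub_zero]
  have hv0 : ‖v - z‖ ≤ (1 + C) * ‖v‖ := by
    refine (norm_sub_le _ _).trans ?_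
    linarith
  have hip : ‖ip c r (v - z)‖ ≤ n * (2 * Q * ‖z‖ * (D * x * |y| * ((1 + C) * ‖v‖))) := by
    have e2 : ip c r (v - z) = ∑ i, (starRingEnd ℂ) (r i) * (-(d * Complex.I * (v - z) i)) := by
      unfold ip
      refine Finset.sum_congr rfl fun i _ => ?_
      by_cases hi : i ∈ I
      · have := R.ell_zero (hell i hi)
        rw [eq_neg_of_add_eq_zero_left this]
      · rw [hr_sup i hi]
        simp
    rw [e2]
    apply norm_sum_conj_le r
    · intro i
      exact (norm_le_pi_norm r i).trans hr_norm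
    · intro i
      rw [norm_neg, norm_dI]
      exact mul_le_mul R.hd ((norm_le_pi_norm (v - z) i).trans hv0) (norm_nonneg _)
        (by positivity)
  have e3 : hh c (act s w v) = hh c v + (hh c (act s w z) - hh c z) + 2 * (ip c r (v - z)).re := by
    have a1 : hh c v = hh c (v - z) + 2 * (ip c z (v - z)).re + hh c z := by
      rw [← hh_add]
      congr 1
      abel
    have a2 : hh c (act s w v) = hh c (v - z) + 2 * (ip c (act s w z) (v - z)).re +
        hh c (act s w z) := by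
      rw [← hh_add, e1]
      congr 1
      abel
    have a3 : ip c (act s w z) (v - z) = ip c r (v - z) + ip c z (v - z) := by
      rw [← ip_add_left, ← hrz]
    rw [a1, a2, a3, Complex.add_re]
    ring
  have h6 := Complex.re_le_norm (ip c r (v - z))
  have h7 := R.ge hl z
  obtain ⟨E, hE⟩ : ∃ E, E = 4 * n * Q * D * (1 + C) := ⟨_, rfl⟩
  rw [← hE]
  have h8 : 2 * (ip c r (v - z)).re ≤ x * (E * (|y| * ‖v‖) * ‖z‖) := by
    calc 2 * (ip c r (v - z)).re ≤
        2 * (n * (2 * Q * ‖z‖ * (D * x * |y| * ((1 + C) * ‖v‖)))) := by linarith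
      _ = x * (E * (|y| * ‖v‖) * ‖z‖) := by rw [hE]; ring
  have hdl : 0 < de * lam := mul_pos hde hl
  have h9 : E * (|y| * ‖v‖) * ‖z‖ ≤ de * lam / 2 * ‖z‖ ^ 2 +
      E ^ 2 / (2 * (de * lam)) * (y ^ 2 * ‖v‖ ^ 2) := by
    have e4 : de * lam / 2 * ‖z‖ ^ 2 + E ^ 2 / (2 * (de * lam)) * (y ^ 2 * ‖v‖ ^ 2) -
        E * (|y| * ‖v‖) * ‖z‖ = (de * lam * ‖z‖ - E * (|y| * ‖v‖)) ^ 2 / (2 * (de * lam)) := by
      rw [← sq_abs y]
      field_simp
      ring
    have : 0 ≤ (de * lam * ‖z‖ - E * (|y| * ‖v‖)) ^ 2 / (2 * (de * lam)) := by positivity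
    linarith
  have h10 := mul_le_mul_of_nonneg_left h9 hx.le
  have h11 : de * x * (lam * ‖z‖ ^ 2) ≤ de * x * hh c z :=
    mul_le_mul_of_nonneg_left h7 (by positivity)
  rw [e3]
  have e5 : E ^ 2 / (2 * (de * lam)) * x * y ^ 2 * ‖v‖ ^ 2 =
      x * (E ^ 2 / (2 * (de * lam)) * (y ^ 2 * ‖v‖ ^ 2)) := by ring
  have e6 : x * (de * lam / 2 * ‖z‖ ^ 2 + E ^ 2 / (2 * (de * lam)) * (y ^ 2 * ‖v‖ ^ 2)) =
      de * lam / 2 * x * ‖z‖ ^ 2 + x * (E ^ 2 / (2 * (de * lam)) * (y ^ 2 * ‖v‖ ^ 2)) := by ring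
  rw [e5]
  rw [e6] at h10
  linarith

end

end Pool.Agent.Helper78.EV
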