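import Pool.Agent.Helper78.EV.Ind

/-!
# The key step and the main induction
-/

set_option autoImplicit false

namespace Pool.Agent.Helper78.EV

open Matrix Pool.Agent.Helper99.ZB

variable {n : ℕ} {Lam lam c1 K D x y c d : ℝ} {s : ℂ}

/-- a block: a word with support `J`, preceded by a new letter -/
theorem Reg.block (R : Reg n Lam lam c1 K D x y s c d) (hl : 0 < lam) (hL : 0 < Lam)
    (hD : 0 ≤ D) (hc1 : 0 < c1) (hK : 0 ≤ K) {Q C : ℝ} (hQ1 : 1 ≤ Q) (hQ : Lam ≤ lam * Q ^ 2)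
    (hC : n * (Lam + D) / lam ≤ C) {de : ℝ} (hde : 0 < de)
    {I : Finset (Fin n)} {a : Fin n} (ha : a ∈ I) (hI : Con s c x de (I.erase a))
    {mu ep K2 : ℝ} (hmu : 0 < mu) (hmu1 : mu ≤ 1)
    (hmu2 : mu * (c1 * (Lam ^ 2 * Q ^ 2)) ≤ de * lam / 4)
    (hep : ep ≤ de * lam / 4) (hep2 : ep ≤ mu * (c1 * lam ^ 2) / 2) (hep0 : 0 ≤ ep)
    (hK2 : K2 = (4 * n * Q * D * (1 + C)) ^ 2 / (2 * (de * lam)))
    {v : Fin n → ℂ} (hv : Sup I v) {w : List (Fin n)} (hw : ∀ b, b ∈ w ↔ b ∈ I.erase a) :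
    hh c (act s (a :: w) v) ≤ hh c v - ep / 2 * x * ‖v‖ ^ 2 +
      (K2 + K * (Q * C + 1 + C) ^ 2) * x * y ^ 2 * ‖v‖ ^ 2 := by
  have hx := R.hx
  obtain ⟨z, hsup, hell, hz, hall⟩ := R.part hl hL.le hD hQ1 hQ hC hde hI v
  obtain ⟨e1, hQz, h1⟩ := hall w hw
  rw [← hK2] at h1
  obtain ⟨v0, hv0⟩ : ∃ v0, v0 = v - z := ⟨_, rfl⟩
  obtain ⟨z', hz'⟩ : ∃ z', z' = act s w z := ⟨_, rfl⟩
  obtain ⟨v', hv'⟩ : ∃ v', v' = act s w v := ⟨_, rfl⟩
  rw [← hv0, ← hz', ← hv'] at e1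
  rw [← hz'] at hQz
  rw [← hv'] at h1
  rw [act_cons, ← hv']
  have h2 := R.letter v' a
  have hv0n : ‖v0‖ ≤ (1 + C) * ‖v‖ := by
    rw [hv0]
    refine (norm_sub_le _ _).trans ?_
    linarith
  have hv'n : ‖v'‖ ≤ (Q * C + 1 + C) * ‖v‖ := by
    rw [e1]
    refine (norm_add_le _ _).trans ?_
    have : Q * ‖z‖ ≤ Q * (C * ‖v‖) := mul_le_mul_of_nonneg_left hz (by linarith)
    linarith
  -- the harmonic part sees the new letter
  have hsup0 : Sup I v0 := by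
    intro i hi
    rw [hv0, Pi.sub_apply, hv i hi, hsup i (fun h => hi (Finset.mem_of_mem_erase h)), sub_zero]
  have h3 : lam * ‖v0‖ ≤ ‖T c v0 a‖ := by
    have e2 : hh c v0 = (∑ i, (starRingEnd ℂ) (v0 i) *
        (Pi.single a (T c v0 a + d * Complex.I * v0 a) : Fin n → ℂ) i).re := by
      apply hh_eq (d := d)
      intro i hi
      by_cases hia : i = a
      · subst hia
        rw [Pi.single_eq_same]
      · rw [Pi.single_eq_of_ne hia]
        have hiI : i ∈ I.erase a := by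
          rw [Finset.mem_erase]
          refine ⟨hia, ?_⟩
          by_contra hcon
          exact hi (hsup0 i hcon)
        rw [hv0]
        exact R.ell_zero (hell i hiI)
    rw [Finset.sum_eq_single a] at e2
    · rw [Pi.single_eq_same, mul_add, Complex.add_re, re_zero, add_zero] at e2
      have h4 := Complex.re_le_norm ((starRingEnd ℂ) (v0 a) * T c v0 a)
      rw [norm_mul, RCLike.norm_conj] at h4
      have h5 : ‖v0 a‖ * ‖T c v0 a‖ ≤ ‖v0‖ * ‖T c v0 a‖ :=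
        mul_le_mul_of_nonneg_right (norm_le_pi_norm v0 a) (norm_nonneg _)
      have h6 := R.ge hl v0
      rcases (norm_nonneg v0).eq_or_lt with h0 | h0
      · rw [← h0, mul_zero]
        exact norm_nonneg _
      · have : ‖v0‖ * (lam * ‖v0‖) ≤ ‖v0‖ * ‖T c v0 a‖ := by nlinarith
        exact le_of_mul_le_mul_left this h0
    · intro i _ hi
      rw [Pi.single_eq_of_ne hi, mul_zero]
    · intro h
      exact absurd (Finset.mem_univ _) h
  have h4 : ‖T c z' a‖ ≤ Lam * (Q * ‖z‖) :=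
    (R.T_le z' a).trans (mul_le_mul_of_nonneg_left hQz hL.le)
  have h5 : lam * ‖v0‖ - Lam * (Q * ‖z‖) ≤ ‖T c v' a‖ := by
    rw [e1, T_add]
    have : ‖T c v0 a‖ ≤ ‖T c z' a + T c v0 a‖ + ‖T c z' a‖ := by
      have := norm_sub_le (T c z' a + T c v0 a) (T c z' a)
      rwa [add_sub_cancel_left] at this
    linarith
  have h6 : lam ^ 2 * ‖v0‖ ^ 2 / 2 - Lam ^ 2 * Q ^ 2 * ‖z‖ ^ 2 ≤ ‖T c v' a‖ ^ 2 := by
    obtain ⟨A, hA⟩ : ∃ A, A = lam * ‖v0‖ := ⟨_, rfl⟩
    obtain ⟨B, hB⟩ : ∃ B, B = Lam * (Q * ‖z‖) := ⟨_, rfl⟩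
    have eA : lam ^ 2 * ‖v0‖ ^ 2 = A ^ 2 := by rw [hA]; ring
    have eB : Lam ^ 2 * Q ^ 2 * ‖z‖ ^ 2 = B ^ 2 := by rw [hB]; ring
    rw [eA, eB]
    rw [← hA, ← hB] at h5
    have hA0 : 0 ≤ A := by rw [hA]; positivity
    have hB0 : 0 ≤ B := by rw [hB]; positivity
    have ht := norm_nonneg (T c v' a)
    rcases le_total A B with h | h
    · have : A ^ 2 ≤ B ^ 2 := pow_le_pow_left₀ hA0 h 2
      have := sq_nonneg ‖T c v' a‖
      have := sq_nonneg A
      linarith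
    · have : (A - B) ^ 2 ≤ ‖T c v' a‖ ^ 2 := pow_le_pow_left₀ (by linarith) h5 2
      have := sq_nonneg (A - 2 * B)
      nlinarith
  have h7 : mu * (c1 * x) * (lam ^ 2 * ‖v0‖ ^ 2 / 2 - Lam ^ 2 * Q ^ 2 * ‖z‖ ^ 2) ≤
      c1 * x * ‖T c v' a‖ ^ 2 := by
    have a1 : mu * (c1 * x) * (lam ^ 2 * ‖v0‖ ^ 2 / 2 - Lam ^ 2 * Q ^ 2 * ‖z‖ ^ 2) ≤
        mu * (c1 * x) * ‖T c v' a‖ ^ 2 := mul_le_mul_of_nonneg_left h6 (by positivity)
    have a2 : mu * (c1 * x * ‖T c v' a‖ ^ 2) ≤ 1 * (c1 * x * ‖T c v' a‖ ^ 2) :=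
      mul_le_mul_of_nonneg_right hmu1 (by positivity)
    linarith
  have h8 : mu * (c1 * (Lam ^ 2 * Q ^ 2)) * (x * ‖z‖ ^ 2) ≤ de * lam / 4 * (x * ‖z‖ ^ 2) :=
    mul_le_mul_of_nonneg_right hmu2 (by positivity)
  have h9 : ep * (x * ‖z‖ ^ 2) ≤ de * lam / 4 * (x * ‖z‖ ^ 2) :=
    mul_le_mul_of_nonneg_right hep (by positivity)
  have h10 : ep * (x * ‖v0‖ ^ 2) ≤ mu * (c1 * lam ^ 2) / 2 * (x * ‖v0‖ ^ 2) :=
    mul_le_mul_of_nonneg_right hep2 (by positivity)
  have h11 : ‖v‖ ^ 2 ≤ 2 * ‖z‖ ^ 2 + 2 * ‖v0‖ ^ 2 := by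
    have a1 : ‖v‖ ≤ ‖z‖ + ‖v0‖ := by
      have : v = z + v0 := by rw [hv0]; abel
      calc ‖v‖ = ‖z + v0‖ := by rw [← this]
        _ ≤ _ := norm_add_le _ _
    have a2 : ‖v‖ ^ 2 ≤ (‖z‖ + ‖v0‖) ^ 2 := pow_le_pow_left₀ (norm_nonneg _) a1 2
    have := sq_nonneg (‖z‖ - ‖v0‖)
    linarith
  have h12 : ep / 2 * x * ‖v‖ ^ 2 ≤ ep / 2 * x * (2 * ‖z‖ ^ 2 + 2 * ‖v0‖ ^ 2) :=
    mul_le_mul_of_nonneg_left h11 (by positivity)
  have h13 : K * x * y ^ 2 * ‖v'‖ ^ 2 ≤ K * x * y ^ 2 * ((Q * C + 1 + C) ^ 2 * ‖v‖ ^ 2) := by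
    refine mul_le_mul_of_nonneg_left ?_ (by positivity)
    rw [← mul_pow]
    exact pow_le_pow_left₀ (norm_nonneg _) hv'n 2
  linarith

/-- the decomposition of a list -/
theorem exists_block {I : Finset (Fin n)} (hI : I.Nonempty) {w : List (Fin n)}
    (hw : ∀ a, a ∈ w ↔ a ∈ I) :
    ∃ p a u, w = p ++ a :: u ∧ a ∈ I ∧ ∀ b, b ∈ u ↔ b ∈ I.erase a := by
  classical
  have key : ∀ w : List (Fin n), (∀ a ∈ w, a ∈ I) → (∀ a ∈ I, a ∈ w) →
      ∃ p a u, w = p ++ a :: u ∧ a ∈ I ∧ ∀ b, b ∈ u ↔ b ∈ I.erase a := by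
    intro w
    induction w with
    | nil =>
      intro _ h
      obtain ⟨a, ha⟩ := hI
      exact absurd (h a ha) List.not_mem_nil
    | cons b w ih =>
      intro h1 h2
      have h1' : ∀ a ∈ w, a ∈ I := fun a ha => h1 a (List.mem_cons_of_mem _ ha)
      by_cases h3 : ∀ a ∈ I, a ∈ w
      · obtain ⟨p, a, u, e, ha, hu⟩ := ih h1' h3
        exact ⟨b :: p, a, u, by rw [e]; rfl, ha, hu⟩
      · push Not at h3
        obtain ⟨a, ha, haw⟩ := h3
        have hab : a = b := by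
          rcases List.mem_cons.1 (h2 a ha) with h | h
          · exact h
          · exact absurd h haw
        subst hab
        refine ⟨[], a, w, rfl, ha, fun b => ?_⟩
        rw [Finset.mem_erase]
        constructor
        · intro hb
          refine ⟨?_, h1' b hb⟩
          rintro rfl
          exact haw hb
        · rintro ⟨hne, hb⟩
          rcases List.mem_cons.1 (h2 b hb) with h | h
          · exact absurd h hne
          · exact h
  exact key w (fun a ha => (hw a).1 ha) (fun a ha => (hw a).2 ha)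

/-- the induction step -/
theorem Reg.step (R : Reg n Lam lam c1 K D x y s c d) (hl : 0 < lam) (hL : 0 < Lam)
    (hD : 0 ≤ D) (hc1 : 0 < c1) (hK : 0 ≤ K) {Q C : ℝ} (hQ1 : 1 ≤ Q) (hQ : Lam ≤ lam * Q ^ 2)
    (hC : n * (Lam + D) / lam ≤ C) {de : ℝ} (hde : 0 < de)
    {mu ep K2 K3 : ℝ} (hmu : 0 < mu) (hmu1 : mu ≤ 1)
    (hmu2 : mu * (c1 * (Lam ^ 2 * Q ^ 2)) ≤ de * lam / 4)
    (hep : ep ≤ de * lam / 4) (hep2 : ep ≤ mu * (c1 * lam ^ 2) / 2) (hep0 : 0 < ep)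
    (hK2 : K2 = (4 * n * Q * D * (1 + C)) ^ 2 / (2 * (de * lam)))
    (hK3 : K3 = K2 + K * (Q * C + 1 + C) ^ 2)
    (hy1 : K3 * y ^ 2 ≤ ep / 4) (hy2 : K2 * y ^ 2 ≤ ep / (8 * Lam) * lam)
    {I : Finset (Fin n)} (hne : I.Nonempty)
    (hI : ∀ J : Finset (Fin n), J ⊂ I → Con s c x de J) : Con s c x (ep / (8 * Lam)) I := by
  classical
  have hx := R.hx
  intro w
  induction hlen : w.length using Nat.strong_induction_on generalizing w with
  | _ m ih =>
  intro hw z hz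
  obtain ⟨p, a, u, e, ha, hu⟩ := exists_block hne hw
  have hb := R.block hl hL hD hc1 hK hQ1 hQ hC hde ha (hI _ (Finset.erase_ssubset ha)) hmu hmu1
    hmu2 hep hep2 hep0.le hK2 hz hu
  rw [← hK3] at hb
  obtain ⟨v', hv'⟩ : ∃ v', v' = act s (a :: u) z := ⟨_, rfl⟩
  rw [← hv'] at hb
  have hsup' : Sup I v' := by
    rw [hv']
    apply act_sup _ hz
    intro b hb
    rw [← hw b, e]
    exact List.mem_append_right _ hb
  have h1 : K3 * x * y ^ 2 * ‖z‖ ^ 2 ≤ ep / 4 * x * ‖z‖ ^ 2 := by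
    have := mul_le_mul_of_nonneg_right hy1 (by positivity : 0 ≤ x * ‖z‖ ^ 2)
    linarith
  have h2 : ep / (4 * Lam) * x * hh c z ≤ ep / 4 * x * ‖z‖ ^ 2 := by
    have := mul_le_mul_of_nonneg_left (R.le z) (by positivity : 0 ≤ ep / (4 * Lam) * x)
    refine this.trans (le_of_eq ?_)
    field_simp
  obtain ⟨e1, he1⟩ : ∃ e1, e1 = ep / (8 * Lam) := ⟨_, rfl⟩
  have he2 : ep / (4 * Lam) = 2 * e1 := by
    rw [he1]
    field_simp
    ring
  have he0 : 0 < e1 := by rw [he1]; positivity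
  rw [← he1] at hy2 ih ⊢
  rw [he2] at h2
  have h3 : hh c v' ≤ (1 - 2 * e1 * x) * hh c z := by linarith
  have hzn := R.nonneg hl z
  have hvn := R.nonneg hl v'
  have e3 : act s w z = act s p v' := by rw [e, act_append, hv']
  rw [e3]
  have hp : ∀ b ∈ p, b ∈ I := fun b hb => by
    rw [← hw b, e]
    exact List.mem_append_left _ hb
  by_cases hfull : ∀ b ∈ I, b ∈ p
  · have hlt : p.length < m := by
      rw [← hlen, e, List.length_append, List.length_cons]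
      omega
    have h4 := ih p.length hlt p rfl (fun b => ⟨hp b, hfull b⟩) v' hsup'
    have h5 : 0 ≤ e1 * x * hh c v' := by positivity
    have h6 : 0 ≤ e1 * x * hh c z := by positivity
    linarith
  · have hJ : p.toFinset ⊂ I := by
      rw [Finset.ssubset_iff_of_subset (fun b hb => hp b (List.mem_toFinset.1 hb))]
      push Not at hfull
      obtain ⟨b, hb1, hb2⟩ := hfull
      exact ⟨b, hb1, fun h => hb2 (List.mem_toFinset.1 h)⟩
    obtain ⟨z2, _, _, _, hall⟩ := R.part hl hL.le hD hQ1 hQ hC hde (hI _ hJ) v'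
    obtain ⟨_, _, h4⟩ := hall p (fun b => List.mem_toFinset.symm)
    rw [← hK2] at h4
    have h5 : 0 ≤ de * lam / 2 * x * ‖z2‖ ^ 2 := by positivity
    have h6 : K2 * x * y ^ 2 * ‖v'‖ ^ 2 ≤ e1 * x * hh c v' := by
      have a1 := mul_le_mul_of_nonneg_right hy2 (by positivity : 0 ≤ x * ‖v'‖ ^ 2)
      have a2 := mul_le_mul_of_nonneg_left (R.ge hl v') (by positivity : 0 ≤ e1 * x)
      linarith
    have h7 : hh c (act s p v') ≤ (1 + e1 * x) * hh c v' := by linarith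
    have h8 : (1 + e1 * x) * hh c v' ≤ (1 + e1 * x) * ((1 - 2 * e1 * x) * hh c z) :=
      mul_le_mul_of_nonneg_left h3 (by positivity)
    have h9 : 0 ≤ 2 * e1 ^ 2 * x ^ 2 * hh c z := by positivity
    have h10 : (1 + e1 * x) * ((1 - 2 * e1 * x) * hh c z) =
        (1 - e1 * x) * hh c z - 2 * e1 ^ 2 * x ^ 2 * hh c z := by ring
    linarith

/-- **Lemma C, abstract form.** -/
theorem main (n : ℕ) {Lam lam c1 K D : ℝ} (hl : 0 < lam) (hL : 0 < Lam)
    (hD : 0 ≤ D) (hc1 : 0 < c1) (hK : 0 ≤ K) (k : ℕ) :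
    ∃ de > 0, ∃ th > 0, ∀ (x y : ℝ) (s : ℂ) (c d : ℝ), Reg n Lam lam c1 K D x y s c d → |y| ≤ th →
      ∀ I : Finset (Fin n), I.card ≤ k → Con s c x de I := by
  classical
  induction k with
  | zero =>
    refine ⟨1, one_pos, 1, one_pos, ?_⟩
    intro x y s c d R _ I hI w hw z hz
    have hI0 : I = ∅ := Finset.card_eq_zero.1 (Nat.le_zero.1 hI)
    subst hI0
    have hw0 : w = [] := by
      rw [List.eq_nil_iff_forall_not_mem]
      intro a ha
      exact absurd ((hw a).1 ha) (Finset.notMem_empty a)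
    have hz0 : z = 0 := by
      ext i
      exact hz i (Finset.notMem_empty i)
    subst hw0 hz0
    have : hh c (0 : Fin n → ℂ) = 0 := by
      unfold hh ip
      simp
    rw [act_nil, this]
    simp
  | succ k ih =>
    obtain ⟨de, hde, th, hth, H⟩ := ih
    obtain ⟨Q, hQ⟩ : ∃ Q, Q = Lam / lam + 1 := ⟨_, rfl⟩
    have hQ1 : 1 ≤ Q := by
      rw [hQ]
      have : 0 < Lam / lam := by positivity
      linarith
    have hQ2 : Lam ≤ lam * Q ^ 2 := by
      have h1 : Lam / lam ≤ Q := by rw [hQ]; linarith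
      have h2 : Q ≤ Q ^ 2 := by nlinarith
      have h3 : Lam / lam ≤ Q ^ 2 := h1.trans h2
      rw [div_le_iff₀ hl] at h3
      linarith
    obtain ⟨C, hC⟩ : ∃ C, C = n * (Lam + D) / lam := ⟨_, rfl⟩
    have hC0 : 0 ≤ C := by rw [hC]; positivity
    obtain ⟨M, hM⟩ : ∃ M, M = c1 * (Lam ^ 2 * Q ^ 2) := ⟨_, rfl⟩
    have hM0 : 0 < M := by
      rw [hM]
      have : 0 < Q := by linarith
      positivity
    obtain ⟨mu, hmu⟩ : ∃ mu, mu = min 1 (de * lam / (4 * M)) := ⟨_, rfl⟩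
    have hmu0 : 0 < mu := by
      rw [hmu]
      exact lt_min one_pos (by positivity)
    have hmu1 : mu ≤ 1 := by rw [hmu]; exact min_le_left _ _
    have hmu2 : mu * (c1 * (Lam ^ 2 * Q ^ 2)) ≤ de * lam / 4 := by
      rw [← hM]
      have : mu ≤ de * lam / (4 * M) := by rw [hmu]; exact min_le_right _ _
      rw [le_div_iff₀ (by positivity)] at this
      linarith
    obtain ⟨ep, hep⟩ : ∃ ep, ep = min (de * lam / 4) (mu * (c1 * lam ^ 2) / 2) := ⟨_, rfl⟩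
    have hep0 : 0 < ep := by
      rw [hep]
      exact lt_min (by positivity) (by positivity)
    have hep1 : ep ≤ de * lam / 4 := by rw [hep]; exact min_le_left _ _
    have hep2 : ep ≤ mu * (c1 * lam ^ 2) / 2 := by rw [hep]; exact min_le_right _ _
    obtain ⟨K2, hK2⟩ : ∃ K2, K2 = (4 * n * Q * D * (1 + C)) ^ 2 / (2 * (de * lam)) := ⟨_, rfl⟩
    obtain ⟨K3, hK3⟩ : ∃ K3, K3 = K2 + K * (Q * C + 1 + C) ^ 2 := ⟨_, rfl⟩
    have hK20 : 0 ≤ K2 := by rw [hK2]; positivity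
    have hK30 : 0 ≤ K3 := by rw [hK3]; positivity
    obtain ⟨t1, ht1⟩ : ∃ t1, t1 = ep / 4 / (K3 + 1) := ⟨_, rfl⟩
    obtain ⟨t2, ht2⟩ : ∃ t2, t2 = ep / (8 * Lam) * lam / (K2 + 1) := ⟨_, rfl⟩
    have ht10 : 0 < t1 := by rw [ht1]; positivity
    have ht20 : 0 < t2 := by rw [ht2]; positivity
    refine ⟨min de (ep / (8 * Lam)), lt_min hde (by positivity),
      min (min th 1) (min t1 t2), lt_min (lt_min hth one_pos) (lt_min ht10 ht20), ?_⟩
    intro x y s c d R hy I hI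
    have hx := R.hx
    have y1 : |y| ≤ th := hy.trans ((min_le_left _ _).trans (min_le_left _ _))
    have y2 : |y| ≤ 1 := hy.trans ((min_le_left _ _).trans (min_le_right _ _))
    have y3 : |y| ≤ t1 := hy.trans ((min_le_right _ _).trans (min_le_left _ _))
    have y4 : |y| ≤ t2 := hy.trans ((min_le_right _ _).trans (min_le_right _ _))
    have ysq : y ^ 2 ≤ |y| := by
      rw [← sq_abs]
      have := abs_nonneg y
      nlinarith
    have hmono : ∀ {e : ℝ}, min de (ep / (8 * Lam)) ≤ e → Con s c x e I →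
        Con s c x (min de (ep / (8 * Lam))) I := by
      intro e he hcon w hw z hz
      have h1 := hcon w hw z hz
      have h2 := R.nonneg hl z
      have h3 : min de (ep / (8 * Lam)) * (x * hh c z) ≤ e * (x * hh c z) :=
        mul_le_mul_of_nonneg_right he (by positivity)
      linarith
    by_cases hcard : I.card ≤ k
    · exact hmono (min_le_left _ _) (H x y s c d R y1 I hcard)
    · refine hmono (min_le_right _ _) ?_
      have hne : I.Nonempty := by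
        rw [← Finset.card_pos]
        omega
      refine R.step hl hL hD hc1 hK hQ1 hQ2 hC.ge hde hmu0 hmu1 hmu2 hep1 hep2 hep0 hK2 hK3
        ?_ ?_ hne ?_
      · have a1 : y ^ 2 ≤ t1 := ysq.trans y3
        have a2 : K3 * y ^ 2 ≤ (K3 + 1) * t1 :=
          mul_le_mul (by linarith) a1 (sq_nonneg _) (by linarith)
        rw [ht1, mul_div_cancel₀ _ (by positivity : K3 + 1 ≠ 0)] at a2
        exact a2
      · have a1 : y ^ 2 ≤ t2 := ysq.trans y4
        have a2 : K2 * y ^ 2 ≤ (K2 + 1) * t2 :=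
          mul_le_mul (by linarith) a1 (sq_nonneg _) (by linarith)
        rw [ht2, mul_div_cancel₀ _ (by positivity : K2 + 1 ≠ 0)] at a2
        exact a2
      · intro J hJ
        have := Finset.card_lt_card hJ
        exact H x y s c d R y1 J (by omega)

end Pool.Agent.Helper78.EV
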