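import Pool.Agent.Helper78.EV.Key

/-!
# Lemma C: every positive word that contains all letters is a strict contraction
in the energy form, uniformly in the word, at every complex parameter with small imaginary part
-/

set_option autoImplicit false

namespace Pool.Agent.Helper78.EV

open Matrix Pool.Agent.Helper99.ZB

/-- the parameter `s = exp (-φ)`, `φ = x + i y` -/
noncomputable def ss (x y : ℝ) : ℂ := Complex.exp (-((x : ℂ) + y * Complex.I))

theorem ss_ne_zero (x y : ℝ) : ss x y ≠ 0 := Complex.exp_ne_zero _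

theorem norm_ss (x y : ℝ) : ‖ss x y‖ = Real.exp (-x) := by
  unfold ss
  rw [Complex.norm_exp]
  simp

theorem ss_re (x y : ℝ) : (ss x y).re = Real.exp (-x) * Real.cos y := by
  unfold ss
  rw [Complex.exp_re]
  simp

theorem ss_sq (x y : ℝ) : 1 + ss x y ^ 2 = 2 * ss x y *
    (((Real.cosh x * Real.cos y : ℝ) : ℂ) + ((Real.sinh x * Real.sin y : ℝ) : ℂ) * Complex.I) := by
  have h1 : ((Real.cosh x * Real.cos y : ℝ) : ℂ) +
      ((Real.sinh x * Real.sin y : ℝ) : ℂ) * Complex.I = Complex.cosh ((x : ℂ) + y * Complex.I) := by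
    rw [Complex.cosh_add, Complex.cosh_mul_I, Complex.sinh_mul_I]
    push_cast
    ring
  rw [h1, Complex.cosh]
  unfold ss
  have h2 : Complex.exp (-((x : ℂ) + y * Complex.I)) * Complex.exp ((x : ℂ) + y * Complex.I) = 1 := by
    rw [← Complex.exp_add]
    simp
  linear_combination -h2

theorem sinh_le {x : ℝ} (hx : 0 ≤ x) : Real.sinh x ≤ x * Real.exp x := by
  rw [Real.sinh_eq]
  have h1 := Real.add_one_le_exp (-(2 * x))
  have h2 : Real.exp (-x) = Real.exp x * Real.exp (-(2 * x)) := by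
    rw [← Real.exp_add]
    congr 1
    ring
  have h3 := Real.exp_pos x
  rw [h2]
  nlinarith

theorem cosh_le {x : ℝ} (_hx : 0 ≤ x) : Real.cosh x ≤ Real.exp x := by
  rw [Real.cosh_eq]
  have : Real.exp (-x) ≤ Real.exp x := Real.exp_le_exp.2 (by linarith)
  linarith

/-- the data of the region -/
theorem reg (n : ℕ) (Phi : ℝ) (hPhi : 0 ≤ Phi) {x y : ℝ} (hx : 0 < x) (hxP : x ≤ Phi)
    (hy1 : |y| ≤ 1) (hy2 : |y| ≤ 1 - Real.cos (Real.pi / (n + 1))) :
    Reg n ((n + 1) * (Real.exp Phi + n)) ((1 - Real.cos (Real.pi / (n + 1))) / 2)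
      (Real.exp (-Phi) / (1 + 2 * Phi))
      (36 * Real.exp Phi ^ 2 / (Real.exp (-Phi) / (1 + 2 * Phi)) + 4 * Real.exp Phi ^ 2 * Phi)
      (Real.exp Phi * (1 + Phi)) x y (ss x y) (Real.cosh x * Real.cos y)
      (Real.sinh x * Real.sin y) := by
  have hysq : y ^ 2 ≤ |y| := by
    rw [← sq_abs]
    have := abs_nonneg y
    nlinarith
  have hcos := Real.one_sub_sq_div_two_le_cos (x := y)
  have hcos1 : 1 / 2 ≤ Real.cos y := by linarith
  have hcos2 := Real.cos_le_one y
  have hch1 := Real.one_le_cosh x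
  have hE : 1 ≤ Real.exp Phi := Real.one_le_exp hPhi
  have hxE : Real.exp x ≤ Real.exp Phi := Real.exp_le_exp.2 hxP
  have hch2 : Real.cosh x ≤ Real.exp Phi := (cosh_le hx.le).trans hxE
  have hc0 : 0 ≤ Real.cosh x * Real.cos y := by positivity
  have hcle : Real.cosh x * Real.cos y ≤ Real.exp Phi := by nlinarith
  have hn : (0 : ℝ) ≤ n := Nat.cast_nonneg n
  have hsh0 : 0 ≤ Real.sinh x := Real.sinh_nonneg_iff.2 hx.le
  have hsh : Real.sinh x ≤ x * Real.exp Phi :=
    (sinh_le hx.le).trans (mul_le_mul_of_nonneg_left hxE hx.le)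
  have hd : |Real.sinh x * Real.sin y| ≤ Real.exp Phi * x * |y| := by
    rw [abs_mul, abs_of_nonneg hsh0]
    have h1 : |Real.sin y| ≤ |y| := Real.abs_sin_le_abs
    calc Real.sinh x * |Real.sin y| ≤ (x * Real.exp Phi) * |y| :=
          mul_le_mul hsh h1 (abs_nonneg _) (by positivity)
      _ = _ := by ring
  constructor
  · exact hx
  · exact ss_sq x y
  · exact ss_ne_zero x y
  · exact hc0
  · nlinarith
  · nlinarith
  · have : Real.cos y ≤ Real.cosh x * Real.cos y := by nlinarith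
    linarith
  · refine hd.trans ?_
    have : Real.exp Phi ≤ Real.exp Phi * (1 + Phi) := by nlinarith
    have h2 : 0 ≤ x * |y| := by positivity
    nlinarith
  · refine hd.trans ?_
    have h1 : Real.exp Phi * x * |y| ≤ Real.exp Phi * x * 1 :=
      mul_le_mul_of_nonneg_left hy1 (by positivity)
    have h2 : Real.exp Phi * x ≤ Real.exp Phi * (1 + Phi) :=
      mul_le_mul_of_nonneg_left (by linarith) (by positivity)
    linarith
  · intro v a
    obtain ⟨c, hc⟩ : ∃ c, c = Real.cosh x * Real.cos y := ⟨_, rfl⟩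
    obtain ⟨d, hdd⟩ : ∃ d, d = Real.sinh x * Real.sin y := ⟨_, rfl⟩
    obtain ⟨s, hs⟩ : ∃ s, s = ss x y := ⟨_, rfl⟩
    obtain ⟨c1, hc1⟩ : ∃ c1, c1 = Real.exp (-Phi) / (1 + 2 * Phi) := ⟨_, rfl⟩
    have hc1pos : 0 < c1 := by
      rw [hc1]
      have := Real.exp_pos (-Phi)
      positivity
    have hform := ell_eq (ss_sq x y) a v
    rw [← hc, ← hdd, ← hs] at hform
    rw [← hdd] at hd
    rw [← hc, ← hs, ← hc1]
    rw [hform]
    obtain ⟨ze, hze⟩ : ∃ ze, ze = T c v a := ⟨_, rfl⟩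
    rw [hh_update, ← hze]
    -- norms
    have hsn : ‖s‖ = Real.exp (-x) := by rw [hs, norm_ss]
    have hsre : s.re = Real.exp (-x) * Real.cos y := by rw [hs, ss_re]
    have hex : 0 < Real.exp (-x) := Real.exp_pos _
    have hex1 : Real.exp (-x) ≤ 1 := Real.exp_le_one_iff.2 (by linarith)
    obtain ⟨p, hp⟩ : ∃ p, p = |d| * ‖v a‖ := ⟨_, rfl⟩
    have hp0 : 0 ≤ p := by rw [hp]; positivity
    have hdv : ‖(d : ℂ) * Complex.I * v a‖ = p := by rw [norm_dI, hp]
    have hmu : ‖2 * s * (ze + d * Complex.I * v a)‖ ≤ 2 * Real.exp (-x) * (‖ze‖ + p) := by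
      rw [norm_mul, norm_mul, hsn]
      have : ‖(2 : ℂ)‖ = 2 := by norm_num
      rw [this]
      refine mul_le_mul_of_nonneg_left ?_ (by positivity)
      refine (norm_add_le _ _).trans ?_
      rw [hdv]
    have hre : 2 * s.re * ‖ze‖ ^ 2 - 2 * (p * ‖ze‖) ≤
        ((starRingEnd ℂ) (2 * s * (ze + d * Complex.I * v a)) * ze).re := by
      have e1 : (starRingEnd ℂ) (2 * s * (ze + d * Complex.I * v a)) * ze =
          2 * (starRingEnd ℂ) s * ((‖ze‖ ^ 2 : ℝ) : ℂ) +
          2 * ((starRingEnd ℂ) s * ((starRingEnd ℂ) (d * Complex.I * v a) * ze)) := by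
        rw [map_mul, map_mul, map_add, map_ofNat]
        push_cast
        rw [← Complex.conj_mul']
        ring
      have e2 : (2 * (starRingEnd ℂ) s * ((‖ze‖ ^ 2 : ℝ) : ℂ)).re = 2 * s.re * ‖ze‖ ^ 2 := by
        rw [Complex.re_mul_ofReal]
        simp
      have e3 : -(2 * (p * ‖ze‖)) ≤
          (2 * ((starRingEnd ℂ) s * ((starRingEnd ℂ) (d * Complex.I * v a) * ze))).re := by
        have h1 : ‖2 * ((starRingEnd ℂ) s * ((starRingEnd ℂ) (d * Complex.I * v a) * ze))‖ ≤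
            2 * (p * ‖ze‖) := by
          rw [norm_mul, norm_mul, norm_mul, RCLike.norm_conj, RCLike.norm_conj, hdv, hsn]
          have : ‖(2 : ℂ)‖ = 2 := by norm_num
          rw [this]
          have h2 : 0 ≤ p * ‖ze‖ := by positivity
          nlinarith
        have h2 := Complex.abs_re_le_norm
          (2 * ((starRingEnd ℂ) s * ((starRingEnd ℂ) (d * Complex.I * v a) * ze)))
        have h3 := neg_abs_le
          (2 * ((starRingEnd ℂ) s * ((starRingEnd ℂ) (d * Complex.I * v a) * ze))).re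
        linarith
      rw [e1, Complex.add_re, e2]
      linarith
    have hmu2 : c * ‖2 * s * (ze + d * Complex.I * v a)‖ ^ 2 ≤
        4 * (c * Real.exp (-x) ^ 2) * (‖ze‖ + p) ^ 2 := by
      have h1 := pow_le_pow_left₀ (norm_nonneg _) hmu 2
      have h2 : c * ‖2 * s * (ze + d * Complex.I * v a)‖ ^ 2 ≤
          c * (2 * Real.exp (-x) * (‖ze‖ + p)) ^ 2 :=
        mul_le_mul_of_nonneg_left h1 (hc ▸ hc0)
      refine h2.trans (le_of_eq ?_)
      ring
    have hch : Real.exp (-x) * Real.cosh x = (1 + Real.exp (-(2 * x))) / 2 := by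
      rw [Real.cosh_eq]
      have e1 : Real.exp (-x) * Real.exp x = 1 := by rw [← Real.exp_add]; simp
      have e2 : Real.exp (-x) * Real.exp (-x) = Real.exp (-(2 * x)) := by
        rw [← Real.exp_add]
        congr 1
        ring
      rw [← e2, ← e1]
      ring
    have hcs : c * Real.exp (-x) ^ 2 = Real.exp (-x) * Real.cos y * ((1 + Real.exp (-(2 * x))) / 2) := by
      rw [← hch, hc]
      ring
    have he2 : Real.exp (-(2 * x)) ≤ 1 / (1 + 2 * x) := by
      rw [Real.exp_neg, ← one_div]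
      apply one_div_le_one_div_of_le (by positivity)
      have := Real.add_one_le_exp (2 * x)
      linarith
    have he3 : Real.exp (-(2 * x)) ≤ 1 := Real.exp_le_one_iff.2 (by linarith)
    have he4 : 0 < Real.exp (-(2 * x)) := Real.exp_pos _
    have hcs1 : c * Real.exp (-x) ^ 2 ≤ 1 := by
      rw [hcs]
      have h1 : Real.exp (-x) * Real.cos y ≤ 1 := by nlinarith
      have h2 : 0 ≤ Real.exp (-x) * Real.cos y := by positivity
      nlinarith
    have hcs0 : 0 ≤ c * Real.exp (-x) ^ 2 := by rw [hc]; positivity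
    -- the gain
    have hgain : 2 * c1 * x ≤ 2 * Real.exp (-x) * Real.cos y * (1 - Real.exp (-(2 * x))) := by
      have h1 : 2 * x / (1 + 2 * Phi) ≤ 1 - Real.exp (-(2 * x)) := by
        have h2 : 1 - 1 / (1 + 2 * x) = 2 * x / (1 + 2 * x) := by
          field_simp
          ring
        have h3 : 2 * x / (1 + 2 * Phi) ≤ 2 * x / (1 + 2 * x) := by
          apply div_le_div_of_nonneg_left (by positivity) (by positivity)
          linarith
        linarith
      have h4 : Real.exp (-Phi) ≤ Real.exp (-x) := Real.exp_le_exp.2 (by linarith)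
      have h5 : Real.exp (-Phi) * (2 * x / (1 + 2 * Phi)) ≤
          Real.exp (-x) * (1 - Real.exp (-(2 * x))) :=
        mul_le_mul h4 h1 (by positivity) hex.le
      have h6 : 0 ≤ Real.exp (-x) * (1 - Real.exp (-(2 * x))) :=
        mul_nonneg hex.le (by linarith)
      have h7 : 2 * c1 * x = Real.exp (-Phi) * (2 * x / (1 + 2 * Phi)) := by
        rw [hc1]
        field_simp
      nlinarith
    have hquad : 12 * p * ‖ze‖ ≤ c1 * x * ‖ze‖ ^ 2 + 36 * p ^ 2 / (c1 * x) := by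
      have h1 : 0 < c1 * x := mul_pos hc1pos hx
      have e1 : c1 * x * ‖ze‖ ^ 2 + 36 * p ^ 2 / (c1 * x) - 12 * p * ‖ze‖ =
          (c1 * x * ‖ze‖ - 6 * p) ^ 2 / (c1 * x) := by
        field_simp
        ring
      have : 0 ≤ (c1 * x * ‖ze‖ - 6 * p) ^ 2 / (c1 * x) := by positivity
      linarith
    have hp2 : p ≤ Real.exp Phi * x * |y| * ‖v‖ := by
      rw [hp]
      exact mul_le_mul hd (norm_le_pi_norm v a) (norm_nonneg _) (by positivity)
    have hp3 : p ^ 2 ≤ Real.exp Phi ^ 2 * x ^ 2 * y ^ 2 * ‖v‖ ^ 2 := by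
      have := pow_le_pow_left₀ hp0 hp2 2
      refine this.trans (le_of_eq ?_)
      rw [← sq_abs y]
      ring
    have h36 : 36 * p ^ 2 / (c1 * x) ≤ 36 * Real.exp Phi ^ 2 / c1 * x * y ^ 2 * ‖v‖ ^ 2 := by
      rw [div_le_iff₀ (mul_pos hc1pos hx)]
      have e1 : 36 * Real.exp Phi ^ 2 / c1 * x * y ^ 2 * ‖v‖ ^ 2 * (c1 * x) =
          36 * (Real.exp Phi ^ 2 * x ^ 2 * y ^ 2 * ‖v‖ ^ 2) := by
        field_simp
      rw [e1]
      linarith
    have h4p : 4 * p ^ 2 ≤ 4 * Real.exp Phi ^ 2 * Phi * x * y ^ 2 * ‖v‖ ^ 2 := by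
      have h1 : x * (Real.exp Phi ^ 2 * x * y ^ 2 * ‖v‖ ^ 2) ≤
          Phi * (Real.exp Phi ^ 2 * x * y ^ 2 * ‖v‖ ^ 2) :=
        mul_le_mul_of_nonneg_right hxP (by positivity)
      linarith
    -- combine
    have hz0 := norm_nonneg ze
    have hexpand : 4 * (c * Real.exp (-x) ^ 2) * (‖ze‖ + p) ^ 2 ≤
        4 * (c * Real.exp (-x) ^ 2) * ‖ze‖ ^ 2 + 8 * (p * ‖ze‖) + 4 * p ^ 2 := by
      have h1 : 0 ≤ p * ‖ze‖ := by positivity
      have h2 : 0 ≤ p ^ 2 := sq_nonneg _
      have h3 : (c * Real.exp (-x) ^ 2) * (8 * (p * ‖ze‖) + 4 * p ^ 2) ≤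
          1 * (8 * (p * ‖ze‖) + 4 * p ^ 2) := mul_le_mul_of_nonneg_right hcs1 (by positivity)
      nlinarith
    have hmain : 4 * (c * Real.exp (-x) ^ 2) * ‖ze‖ ^ 2 - 4 * s.re * ‖ze‖ ^ 2 ≤
        -(2 * c1 * x * ‖ze‖ ^ 2) := by
      rw [hcs, hsre]
      have h1 := mul_le_mul_of_nonneg_right hgain (sq_nonneg ‖ze‖)
      nlinarith
    have hgoal : hh c v - 2 * ((starRingEnd ℂ) (2 * s * (ze + d * Complex.I * v a)) * ze).re +
        c * ‖2 * s * (ze + d * Complex.I * v a)‖ ^ 2 ≤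
        hh c v - c1 * x * ‖ze‖ ^ 2 + 36 * p ^ 2 / (c1 * x) + 4 * p ^ 2 := by
      linarith
    refine hgoal.trans ?_
    have e : (36 * Real.exp Phi ^ 2 / c1 + 4 * Real.exp Phi ^ 2 * Phi) * x * y ^ 2 * ‖v‖ ^ 2 =
        36 * Real.exp Phi ^ 2 / c1 * x * y ^ 2 * ‖v‖ ^ 2 +
        4 * Real.exp Phi ^ 2 * Phi * x * y ^ 2 * ‖v‖ ^ 2 := by ring
    rw [e]
    linarith

/-- **Lemma C.** -/
theorem lemmaC (n : ℕ) {Phi : ℝ} (hPhi : 0 ≤ Phi) : ∃ th > 0, ∃ de > 0, ∀ x y : ℝ, 0 < x → x ≤ Phi →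
    |y| ≤ th → (∀ v : Fin n → ℂ, v ≠ 0 → 0 < hh (Real.cosh x * Real.cos y) v) ∧
      ∀ w : List ℕ, (∀ a ∈ w, a < n) → (∀ a < n, a ∈ w) → ∀ v : Fin n → ℂ,
        hh (Real.cosh x * Real.cos y) (W (ss x y) n w *ᵥ v) ≤
          (1 - de * x) * hh (Real.cosh x * Real.cos y) v := by
  have hk := kap_lt n
  obtain ⟨c1, hc1⟩ : ∃ c1, c1 = Real.exp (-Phi) / (1 + 2 * Phi) := ⟨_, rfl⟩
  have hc1pos : 0 < c1 := by
    rw [hc1]
    have := Real.exp_pos (-Phi)
    positivity
  have hEp := Real.exp_pos Phi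
  obtain ⟨de, hde, th, hth, H⟩ := main n (Lam := (n + 1) * (Real.exp Phi + n))
    (lam := (1 - Real.cos (Real.pi / (n + 1))) / 2) (c1 := c1)
    (K := 36 * Real.exp Phi ^ 2 / c1 + 4 * Real.exp Phi ^ 2 * Phi) (D := Real.exp Phi * (1 + Phi))
    (by linarith) (by positivity) (by positivity) hc1pos (by positivity) n
  refine ⟨min th (min 1 (1 - Real.cos (Real.pi / (n + 1)))),
    lt_min hth (lt_min one_pos (by linarith)), de, hde, ?_⟩
  intro x y hx hxP hy
  have y1 : |y| ≤ th := hy.trans (min_le_left _ _)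
  have y2 : |y| ≤ 1 := hy.trans ((min_le_right _ _).trans (min_le_left _ _))
  have y3 : |y| ≤ 1 - Real.cos (Real.pi / (n + 1)) :=
    hy.trans ((min_le_right _ _).trans (min_le_right _ _))
  have R := reg n Phi hPhi hx hxP y2 y3
  rw [← hc1] at R
  constructor
  · intro v hv
    have h1 := R.ge (by linarith) v
    have h2 : 0 < ‖v‖ := norm_pos_iff.2 hv
    refine lt_of_lt_of_le ?_ h1
    have : 0 < 1 - Real.cos (Real.pi / (n + 1)) := by linarith
    positivity
  · intro w hw hfull v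
    have hcon := H x y _ _ _ R y1 Finset.univ (by simp)
    -- convert the word
    obtain ⟨u, hu⟩ : ∃ u : List (Fin n), u.map Fin.val = w := by
      refine ⟨w.attach.map fun a => ⟨a.1, hw a.1 a.2⟩, ?_⟩
      rw [List.map_map]
      conv_rhs => rw [← List.attach_map_subtype_val w]
      rfl
    have h1 := hcon u (by
      intro a
      constructor
      · intro _
        exact Finset.mem_univ _
      · intro _
        have := hfull a a.2
        rw [← hu, List.mem_map] at this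
        obtain ⟨b, hb, hba⟩ := this
        rwa [← Fin.ext hba]) v (fun i hi => absurd (Finset.mem_univ i) hi)
    unfold act at h1
    rwa [hu] at h1

end Pool.Agent.Helper78.EV
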